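import Pool.Agent.H397R3.NORE.Core

set_option autoImplicit false

open Matrix
open scoped Classical

namespace Pool.Agent.H397R3.NORE

section

variable {k R : Type} [Field k] [Ring R] [Algebra k R] {m n : ℕ} {B I : Type}
  (bs : Module.Basis B k (Matrix (Fin m) (Fin n) R)) (bL : Module.Basis I k (Fin n → R))
  (lam : Matrix (Fin m) (Fin n) R →ₗ[k] k) (A : Matrix (Fin m) (Fin n) R)

theorem op_mem_NN (l : Fin n → R) (w : List B) (q : Fin m → R) :
    op bs lam A l w q ∈ NN bs lam A := Submodule.subset_span ⟨l, w, q, rfl⟩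

theorem rho_mul_NN (r : R) {y : Module.End k (MM R B n)} (hy : y ∈ NN bs lam A) :
    rho r * y ∈ NN bs lam A := by
  refine Submodule.span_induction (p := fun y _ => rho r * y ∈ NN bs lam A) ?_ ?_ ?_ ?_ hy
  · rintro _ ⟨l, w, q, rfl⟩
    rw [rho_op]; exact op_mem_NN bs lam A _ _ _
  · rw [mul_zero]; exact zero_mem _
  · intro a b _ _ ha hb
    rw [mul_add]; exact add_mem ha hb
  · intro c a _ ha
    rw [mul_smul_comm]; exact Submodule.smul_mem _ _ ha

theorem NN_mul_rho (r : R) {y : Module.End k (MM R B n)} (hy : y ∈ NN bs lam A) :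
    y * rho r ∈ NN bs lam A := by
  refine Submodule.span_induction (p := fun y _ => y * rho r ∈ NN bs lam A) ?_ ?_ ?_ ?_ hy
  · rintro _ ⟨l, w, q, rfl⟩
    rw [op_rho]; exact op_mem_NN bs lam A _ _ _
  · rw [zero_mul]; exact zero_mem _
  · intro a b _ _ ha hb
    rw [add_mul]; exact add_mem ha hb
  · intro c a _ ha
    rw [smul_mul_assoc]; exact Submodule.smul_mem _ _ ha

theorem op_mul_NN (l : Fin n → R) (w : List B) (q : Fin m → R)
    {y : Module.End k (MM R B n)} (hy : y ∈ NN bs lam A) :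
    op bs lam A l w q * y ∈ NN bs lam A := by
  refine Submodule.span_induction (p := fun y _ => op bs lam A l w q * y ∈ NN bs lam A)
    ?_ ?_ ?_ ?_ hy
  · rintro _ ⟨l', w', q', rfl⟩
    rw [op_op]
    refine add_mem (Submodule.smul_mem _ _ (op_mem_NN bs lam A _ _ _)) ?_
    exact Submodule.sum_mem _ fun b _ => Submodule.smul_mem _ _ (op_mem_NN bs lam A _ _ _)
  · rw [mul_zero]; exact zero_mem _
  · intro a b _ _ ha hb
    rw [mul_add]; exact add_mem ha hb
  · intro c a _ ha
    rw [mul_smul_comm]; exact Submodule.smul_mem _ _ ha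

theorem NN_mul_NN {x y : Module.End k (MM R B n)} (hx : x ∈ NN bs lam A) (hy : y ∈ NN bs lam A) :
    x * y ∈ NN bs lam A := by
  refine Submodule.span_induction (p := fun x _ => x * y ∈ NN bs lam A) ?_ ?_ ?_ ?_ hx
  · rintro _ ⟨l, w, q, rfl⟩
    exact op_mul_NN bs lam A l w q hy
  · rw [zero_mul]; exact zero_mem _
  · intro a b _ _ ha hb
    rw [add_mul]; exact add_mem ha hb
  · intro c a _ ha
    rw [smul_mul_assoc]; exact Submodule.smul_mem _ _ ha

/-- the ring -/
noncomputable def SS : Subalgebra k (Module.End k (MM R B n)) where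
  carrier := {a | ∃ r : R, ∃ y ∈ NN bs lam A, a = rho r + y}
  mul_mem' := by
    rintro _ _ ⟨r, y, hy, rfl⟩ ⟨r', y', hy', rfl⟩
    refine ⟨r * r', rho r * y' + (y * rho r' + y * y'), ?_, ?_⟩
    · exact add_mem (rho_mul_NN bs lam A r hy') (add_mem (NN_mul_rho bs lam A r' hy)
        (NN_mul_NN bs lam A hy hy'))
    · rw [map_mul]; noncomm_ring
  add_mem' := by
    rintro _ _ ⟨r, y, hy, rfl⟩ ⟨r', y', hy', rfl⟩
    refine ⟨r + r', y + y', add_mem hy hy', ?_⟩
    rw [map_add]; abel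
  algebraMap_mem' := by
    intro c
    refine ⟨algebraMap k R c, 0, zero_mem _, ?_⟩
    rw [add_zero, AlgHom.commutes]

noncomputable instance instRingSS : Ring (SS bs lam A) :=
  @Subalgebra.toRing k (Module.End k (MM R B n)) _ _ _ (SS bs lam A)

theorem SS_nf (a : Module.End k (MM R B n)) (ha : a ∈ SS bs lam A) :
    ∃ (r : R) (x : (I × List B) →₀ (Fin m → R)), a = nf bs bL lam A r x := by
  obtain ⟨r, y, hy, rfl⟩ := ha
  obtain ⟨x, rfl⟩ := NN_le bs bL lam A hy
  exact ⟨r, x, rfl⟩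

theorem rho_mem (r : R) : (rho r : Module.End k (MM R B n)) ∈ SS bs lam A :=
  ⟨r, 0, zero_mem _, (add_zero _).symm⟩

theorem op_mem_SS (l : Fin n → R) (w : List B) (q : Fin m → R) :
    op bs lam A l w q ∈ SS bs lam A :=
  ⟨0, _, op_mem_NN bs lam A l w q, by rw [map_zero, zero_add]⟩

/-- the embedding of `R` -/
noncomputable def phi : R →ₐ[k] SS bs lam A :=
  AlgHom.codRestrict (rho : R →ₐ[k] Module.End k (MM R B n)) (SS bs lam A) (rho_mem bs lam A)

theorem phi_coe (r : R) : ((phi bs lam A r : SS bs lam A) : Module.End k (MM R B n)) = rho r := rfl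

theorem SS_dom [IsDomain R] (hnv : ¬ ∃ (c : Fin m → R) (d : Fin n → R), A = vecMulVec c d)
    (τ0 : MM R B n) (hτ0 : τ0 ≠ 0) : IsDomain (SS bs lam A) := by
  have bL := Module.Basis.ofVectorSpace k (Fin n → R)
  have : Nontrivial (SS bs lam A) := by
    refine ⟨0, 1, fun h => ?_⟩
    have h1 := congrArg (fun a : SS bs lam A => (a : Module.End k (MM R B n)) τ0) h
    simp only [ZeroMemClass.coe_zero, LinearMap.zero_apply, OneMemClass.coe_one,
      Module.End.one_apply] at h1
    exact hτ0 h1.symm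
  have : NoZeroDivisors (SS bs lam A) := by
    refine ⟨fun {a b} hab => ?_⟩
    by_cases hb : b = 0
    · exact Or.inr hb
    left
    have hb' : (b : Module.End k (MM R B n)) ≠ 0 := fun h => hb (Subtype.ext h)
    obtain ⟨τ, hτ⟩ : ∃ τ, (b : Module.End k (MM R B n)) τ ≠ 0 := by
      by_contra hcon
      push Not at hcon
      exact hb' (LinearMap.ext hcon)
    obtain ⟨r, x, hrx⟩ := SS_nf bs bL lam A a.1 a.2
    have h1 : nf bs bL lam A r x ((b : Module.End k (MM R B n)) τ) = 0 := by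
      rw [← hrx]
      have h2 := congrArg (fun a : SS bs lam A => (a : Module.End k (MM R B n)) τ) hab
      exact h2
    obtain ⟨h3, h4⟩ := inj1 bs bL lam A hnv r x _ hτ h1
    apply Subtype.ext
    rw [hrx, h3, h4]
    unfold nf
    rw [map_zero, map_zero, add_zero]
    rfl
  exact NoZeroDivisors.to_isDomain (SS bs lam A)

/-- right multiplication of columns -/
noncomputable def mulR (t : R) : (Fin m → R) →ₗ[k] (Fin m → R) where
  toFun q := fun a => q a * t
  map_add' q q' := by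
    funext a; simp [add_mul]
  map_smul' c q := by
    funext a; simp

theorem Psi_rho (x : (I × List B) →₀ (Fin m → R)) (t : R) :
    Psi bs bL lam A x * rho t =
      Psi bs bL lam A (Finsupp.mapRange.linearMap (mulR (k := k) t) x) := by
  induction x using Finsupp.induction_linear with
  | zero => simp
  | add f g hf hg => rw [map_add, map_add, map_add, ← hf, ← hg, add_mul]
  | single iw q =>
    rw [Finsupp.mapRange.linearMap_apply, Finsupp.mapRange_single, Psi_single, Psi_single, op_rho]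
    rfl

theorem nf_rho (r t : R) (x : (I × List B) →₀ (Fin m → R)) :
    nf bs bL lam A r x * rho t =
      nf bs bL lam A (r * t) (Finsupp.mapRange.linearMap (mulR (k := k) t) x) := by
  unfold nf
  rw [add_mul, Psi_rho, map_mul]

theorem nf_sum (q : ℕ) (r : Fin q → R) (x : Fin q → ((I × List B) →₀ (Fin m → R))) :
    ∑ p, nf bs bL lam A (r p) (x p) = nf bs bL lam A (∑ p, r p) (∑ p, x p) := by
  unfold nf
  rw [Finset.sum_add_distrib, map_sum, map_sum]

theorem nf_zero_of [IsDomain R] (hnv : ¬ ∃ (c : Fin m → R) (d : Fin n → R), A = vecMulVec c d)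
    (τ : MM R B n) (hτ : τ ≠ 0) (r : R) (x : (I × List B) →₀ (Fin m → R))
    (h : nf bs bL lam A r x = 0) : r = 0 ∧ x = 0 :=
  inj1 bs bL lam A hnv r x τ hτ (by rw [h]; rfl)

theorem row_zero [IsDomain R] (hnv : ¬ ∃ (c : Fin m → R) (d : Fin n → R), A = vecMulVec c d)
    (τ : MM R B n) (hτ : τ ≠ 0) (q : ℕ) (r : Fin q → R)
    (x : Fin q → ((I × List B) →₀ (Fin m → R))) (t : Fin q → R)
    (h : ∑ p, nf bs bL lam A (r p) (x p) * rho (t p) = 0) :
    ∑ p, r p * t p = 0 ∧ ∀ iw a, ∑ p, x p iw a * t p = 0 := by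
  simp only [nf_rho] at h
  rw [nf_sum] at h
  obtain ⟨h1, h2⟩ := nf_zero_of bs bL lam A hnv τ hτ _ _ h
  refine ⟨h1, fun iw a => ?_⟩
  have h3 := congrFun (DFunLike.congr_fun h2 iw) a
  rw [Finsupp.finsetSum_apply, Finset.sum_apply] at h3
  exact h3

theorem wrap [IsDomain R] (hnv : ¬ ∃ (c : Fin m → R) (d : Fin n → R), A = vecMulVec c d)
    (hA : lam A = 1) (q : ℕ) (Z : Fin q → Fin m → R) (Y : Fin q → Fin n → R)
    (hZY : ∑ p, vecMulVec (Z p) (Y p) = A) (G : Matrix (Fin q) (Fin q) R)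
    (hZG : ∀ a p', ∑ p, Z p a * G p p' = 0)
    (hcan : ∀ y : Fin q → R, (∀ p', ∑ p, y p * G p p' = 0) → (∀ b, ∑ p, y p * Y p b = 0) →
      ∀ p, y p = 0)
    (ρ : Fin q → Module.End k (MM R B n)) (hρ : ∀ p, ρ p ∈ SS bs lam A)
    (hρG : ∀ p', ∑ p, ρ p * rho (G p p') = 0)
    (z : Fin m → R) (hz : z ≠ 0) (hρs : ∑ p, ρ p * op bs lam A (Y p) [] z = 0)
    (c : Fin q → MM R B n) (hne : ∃ p, c p ≠ 0) (hth : ∑ p, th bs lam A (Z p) (c p) = 0)
    (hGc : ∀ p, ∑ p', G p p' • c p' = 0)
    (htop : ∀ C : Fin q → Fin n → R, pr lam A (∑ p, vecMulVec (Z p) (C p)) = 0 →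
      (∀ p, ∑ p', G p p' • C p' = 0) → ∃ κ : k, ∀ p, C p = κ • Y p)
    (hdot : ∑ p, ρ p (c p) = 0) : ∀ p, ρ p = 0 := by
  have bL := Module.Basis.ofVectorSpace k (Fin n → R)
  obtain ⟨p0, hp0⟩ := hne
  choose r x hrx using fun p => SS_nf bs bL lam A (ρ p) (hρ p)
  obtain ⟨w0', hc, p1, hp1⟩ := exists_top q c ⟨p0, hp0⟩
  have hpr : pr lam A (∑ p, vecMulVec (Z p) (c p w0')) = 0 := by
    apply bs.repr.injective
    apply Finsupp.ext
    intro b
    rw [map_zero, Finsupp.zero_apply, map_sum, map_sum, Finsupp.finsetSum_apply]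
    have h1 := DFunLike.congr_fun hth (b :: w0')
    rw [Finsupp.finsetSum_apply, Finsupp.zero_apply] at h1
    rw [← h1]
    exact Finset.sum_congr rfl fun p _ => (th_top bs lam A (Z p) (c p) w0' (hc p) b).symm
  have hGC : ∀ p, ∑ p', G p p' • c p' w0' = 0 := by
    intro p
    have h1 := DFunLike.congr_fun (hGc p) w0'
    rw [Finsupp.finsetSum_apply, Finsupp.zero_apply] at h1
    exact h1
  obtain ⟨κ, hκ⟩ := htop (fun p => c p w0') hpr hGC
  have hκ0 : κ ≠ 0 := by
    rintro rfl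
    exact hp1 (by rw [hκ p1, zero_smul])
  have hrow : ∀ p', ∑ p, r p * G p p' = 0 ∧ ∀ iw a, ∑ p, x p iw a * G p p' = 0 := by
    intro p'
    apply row_zero bs bL lam A hnv (c p0) hp0 q r x (fun p => G p p')
    rw [← hρG p']
    exact Finset.sum_congr rfl fun p _ => by rw [← hrx p]
  let g : Fin q → Fin q → R := fun p p' => (1 : Matrix (Fin q) (Fin q) R) p p' - G p p'
  have hg : ∀ y : Fin q → R, ∀ p', ∑ p, y p * g p p' = y p' - ∑ p, y p * G p p' := by
    intro y p'
    simp only [g, mul_sub, Finset.sum_sub_distrib, Matrix.one_apply, mul_ite, mul_one, mul_zero,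
      Finset.sum_ite_eq', Finset.mem_univ, if_true]
  obtain ⟨h5, h6⟩ := gen bs bL lam A hnv hA q Z Y hZY g
    (by intro a p'; rw [hg (fun p => Z p a) p', hZG a p', sub_zero])
    (by
      intro y hy hy2
      refine hcan y (fun p' => ?_) hy2
      have := hy p'
      rw [hg y p'] at this
      exact sub_eq_self.mp this)
    c w0' κ hκ0 hc hκ hth r x
    (by intro p'; rw [hg r p', (hrow p').1, sub_zero])
    (by intro iw a p'; rw [hg (fun p => x p iw a) p', (hrow p').2 iw a, sub_zero])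
    (by rw [← hdot]; exact Finset.sum_congr rfl fun p _ => by rw [← hrx p])
    z hz
    (by rw [← hρs]; exact Finset.sum_congr rfl fun p _ => by rw [← hrx p])
    (c p0) hp0
  intro p
  rw [hrx p, h5 p, h6 p]
  unfold nf
  rw [map_zero, map_zero, add_zero]

end

end Pool.Agent.H397R3.NORE
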