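import Pool.Agent.H354.NORE.Stmts
import Pool.Agent.H397R3.NORE.Alg

set_option autoImplicit false

open Matrix
open scoped Classical

namespace Pool.Agent.H397R3.NORE

section

variable {k R : Type} [Field k] [Ring R] [Algebra k R] {m n : ℕ} {B : Type}
  (bs : Module.Basis B k (Matrix (Fin m) (Fin n) R))
  (lam : Matrix (Fin m) (Fin n) R →ₗ[k] k) (A : Matrix (Fin m) (Fin n) R)
  (e : Matrix (Fin m) (Fin m) R) (f : Matrix (Fin n) (Fin n) R)

theorem op_sum_l (q : ℕ) (t : Fin q → Fin n → R) (w : List B) (z : Fin m → R) :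
    ∑ p, op bs lam A (t p) w z = op bs lam A (∑ p, t p) w z :=
  (map_sum (opl bs lam A w z) t Finset.univ).symm

theorem op_sum_q (q : ℕ) (l : Fin n → R) (w : List B) (t : Fin q → Fin m → R) :
    ∑ p, op bs lam A l w (t p) = op bs lam A l w (∑ p, t p) :=
  (map_sum (opq bs lam A l w) t Finset.univ).symm

theorem op_zero_l (w : List B) (z : Fin m → R) : op bs lam A 0 w z = 0 :=
  (opl bs lam A w z).map_zero

theorem op_zero_q (l : Fin n → R) (w : List B) : op bs lam A l w 0 = 0 :=
  (opq bs lam A l w).map_zero

/-- row of `1 - f` -/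
def Rw (p : Fin n) : Fin n → R := fun j => (1 - f) p j

/-- column of `1 - e` -/
def Cl (q : Fin m) : Fin m → R := fun a => (1 - e) a q

/-- the generic partial inverse -/
noncomputable def sM : Matrix (Fin n) (Fin m) (SS bs lam A) := fun p q =>
  ⟨op bs lam A (Rw f p) [] (Cl e q), op_mem_SS bs lam A _ _ _⟩

theorem sM_coe (p : Fin n) (q : Fin m) :
    ((sM bs lam A e f p q : SS bs lam A) : Module.End k (MM R B n)) =
      op bs lam A (Rw f p) [] (Cl e q) := rfl

theorem coe_sum {q : ℕ} (t : Fin q → SS bs lam A) :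
    ((∑ p, t p : SS bs lam A) : Module.End k (MM R B n)) =
      ∑ p, (t p : Module.End k (MM R B n)) :=
  map_sum (SS bs lam A).val t Finset.univ

theorem coe_mul (a b : SS bs lam A) :
    ((a * b : SS bs lam A) : Module.End k (MM R B n)) =
      (a : Module.End k (MM R B n)) * (b : Module.End k (MM R B n)) := rfl

/-- the matrix over the extension -/
noncomputable def mp {a b : ℕ} (M : Matrix (Fin a) (Fin b) R) :
    Matrix (Fin a) (Fin b) (SS bs lam A) := M.map (phi bs lam A)

theorem mp_coe {a b : ℕ} (M : Matrix (Fin a) (Fin b) R) (i : Fin a) (j : Fin b) :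
    ((mp bs lam A M i j : SS bs lam A) : Module.End k (MM R B n)) = rho (M i j) := rfl

theorem mp_mul {a b c : ℕ} (M : Matrix (Fin a) (Fin b) R) (N : Matrix (Fin b) (Fin c) R) :
    mp bs lam A M * mp bs lam A N = mp bs lam A (M * N) := by
  unfold mp
  rw [Matrix.map_mul]

theorem mp_s (q : ℕ) (M : Matrix (Fin q) (Fin n) R) (p : Fin q) (z : Fin m) :
    (((mp bs lam A M * sM bs lam A e f) p z : SS bs lam A) : Module.End k (MM R B n)) =
      op bs lam A (fun j => (M * (1 - f) : Matrix (Fin q) (Fin n) R) p j) [] (Cl e z) := by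
  rw [Matrix.mul_apply, coe_sum]
  simp only [coe_mul, mp_coe, sM_coe, rho_op]
  rw [op_sum_l]
  congr 1
  funext j
  rw [Finset.sum_apply, Matrix.mul_apply]
  rfl

theorem s_mp (q : ℕ) (M : Matrix (Fin m) (Fin q) R) (p : Fin n) (z : Fin q) :
    (((sM bs lam A e f * mp bs lam A M) p z : SS bs lam A) : Module.End k (MM R B n)) =
      op bs lam A (Rw f p) [] (fun a => ((1 - e) * M : Matrix (Fin m) (Fin q) R) a z) := by
  rw [Matrix.mul_apply, coe_sum]
  simp only [coe_mul, mp_coe, sM_coe, op_rho]
  rw [op_sum_q]
  congr 1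
  funext a
  rw [Finset.sum_apply, Matrix.mul_apply]
  rfl

theorem alg1 {S : Type} [Ring S] {a : ℕ} (F X : Matrix (Fin a) (Fin a) S) (hFF : F * F = F)
    (hXX : X * X = X) (hFX : F * X = 0) (hXF : X * F = 0) :
    (1 - F - X) * (1 - F - X) = 1 - F - X ∧ (1 - F - X) * F = 0 ∧ F * (1 - F - X) = 0 ∧
      X * (1 - F - X) = 0 ∧ (1 - F - X) * X = 0 := by
  refine ⟨?_, ?_, ?_, ?_, ?_⟩
  · have : (1 - F - X) * (1 - F - X) =
        1 - F - X - (F - F * F - F * X) - (X - X * F - X * X) := by noncomm_ring
    rw [this, hFF, hXX, hFX, hXF]; noncomm_ring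
  · have : (1 - F - X) * F = F - F * F - X * F := by noncomm_ring
    rw [this, hFF, hXF]; noncomm_ring
  · have : F * (1 - F - X) = F - F * F - F * X := by noncomm_ring
    rw [this, hFF, hFX]; noncomm_ring
  · have : X * (1 - F - X) = X - X * F - X * X := by noncomm_ring
    rw [this, hXX, hXF]; noncomm_ring
  · have : (1 - F - X) * X = X - F * X - X * X := by noncomm_ring
    rw [this, hXX, hFX]; noncomm_ring

theorem main [IsDomain R] (heA : e * A = 0) (hAf : A * f = 0)
    (hel : ∀ ρ : Fin m → R, ρ ᵥ* A = 0 → ρ ᵥ* e = ρ)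
    (hfr : ∀ y : Fin n → R, A *ᵥ y = 0 → f *ᵥ y = y)
    (hnv : ¬ ∃ (c : Fin m → R) (d : Fin n → R), A = vecMulVec c d) (hlam : lam A = 1)
    (τ0 : MM R B n) (hτ0 : τ0 ≠ 0) :
    Function.Injective (phi bs lam A) ∧
    sM bs lam A e f * mp bs lam A A * sM bs lam A e f = sM bs lam A e f ∧
    sM bs lam A e f * mp bs lam A e = 0 ∧ mp bs lam A f * sM bs lam A e f = 0 ∧
    H354P.DomLike (1 - mp bs lam A f - sM bs lam A e f * mp bs lam A A) ∧
    H354P.DomLike (1 - mp bs lam A e - mp bs lam A A * sM bs lam A e f) := by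
  have hdom := SS_dom bs lam A hnv τ0 hτ0
  have hA0 : A ≠ 0 := by
    rintro rfl
    rw [map_zero] at hlam
    exact zero_ne_one hlam
  have hee : e * e = e := by
    ext i j
    have h1 := hel (e i) (by
      funext b
      have := congrFun (congrFun heA i) b
      rw [Matrix.mul_apply] at this
      exact this)
    have h2 := congrFun h1 j
    rw [Matrix.mul_apply]
    exact h2
  have hff : f * f = f := by
    ext i j
    have h1 := hfr (fun b => f b j) (by
      funext b
      have := congrFun (congrFun hAf b) j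
      rw [Matrix.mul_apply] at this
      exact this)
    have h2 := congrFun h1 i
    rw [Matrix.mul_apply]
    exact h2
  have hA1 : A * (1 - f) = A := by rw [Matrix.mul_sub, Matrix.mul_one, hAf, sub_zero]
  have h1A : (1 - e) * A = A := by rw [Matrix.sub_mul, Matrix.one_mul, heA, sub_zero]
  have hf1 : f * (1 - f) = 0 := by rw [mul_sub, mul_one, hff, sub_self]
  have h1f : (1 - f) * f = 0 := by rw [sub_mul, one_mul, hff, sub_self]
  have h1e : (1 - e) * e = 0 := by rw [sub_mul, one_mul, hee, sub_self]
  have hfne : (1 - f) ≠ 0 := by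
    intro h
    rw [h, Matrix.mul_zero] at hA1
    exact hA0 hA1.symm
  have hene : (1 - e) ≠ 0 := by
    intro h
    rw [h, Matrix.zero_mul] at h1A
    exact hA0 h1A.symm
  obtain ⟨p1, hp1⟩ : ∃ p, Rw f p ≠ 0 := by
    by_contra hcon
    push Not at hcon
    exact hfne (Matrix.ext fun i j => congrFun (hcon i) j)
  obtain ⟨q1, hq1⟩ : ∃ q, Cl e q ≠ 0 := by
    by_contra hcon
    push Not at hcon
    exact hene (Matrix.ext fun i j => congrFun (hcon j) i)
  set F := mp bs lam A f with hF
  set E' := mp bs lam A e with hE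
  set A' := mp bs lam A A with hA'
  set s := sM bs lam A e f with hs
  have hFs : F * s = 0 := by
    refine Matrix.ext fun i j => Subtype.ext ?_
    rw [hF, hs, mp_s, hf1]
    exact op_zero_l bs lam A _ _
  have hsE : s * E' = 0 := by
    refine Matrix.ext fun i j => Subtype.ext ?_
    rw [hE, hs, s_mp, h1e]
    exact op_zero_q bs lam A _ _
  have hsA : ∀ i j, ((s * A') i j : Module.End k (MM R B n)) =
      op bs lam A (Rw f i) [] (fun a => A a j) := by
    intro i j
    rw [hA', hs, s_mp, h1A]
  have hAs : ∀ i j, ((A' * s) i j : Module.End k (MM R B n)) =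
      op bs lam A (A i) [] (Cl e j) := by
    intro i j
    rw [hA', hs, mp_s, hA1]
  have hZY1 : ∑ p, vecMulVec (fun a => A a p) (Rw f p) = A := by
    conv_rhs => rw [← hA1]
    ext a b
    rw [Matrix.sum_apply, Matrix.mul_apply]
    rfl
  have hZY2 : ∑ p, vecMulVec (Cl e p) (A p) = A := by
    conv_rhs => rw [← h1A]
    ext a b
    rw [Matrix.sum_apply, Matrix.mul_apply]
    rfl
  have hsAs : s * A' * s = s := by
    refine Matrix.ext fun i j => Subtype.ext ?_
    rw [Matrix.mul_apply, coe_sum]
    simp only [coe_mul, hsA]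
    exact sum_op bs lam A hlam n (fun p a => A a p) (Rw f) hZY1 _ _ _
  have hAF : A' * F = 0 := by
    rw [hA', hF, mp_mul, hAf]
    refine Matrix.ext fun i j => Subtype.ext ?_
    rw [mp_coe, Matrix.zero_apply, map_zero]; rfl
  have hEA : E' * A' = 0 := by
    rw [hA', hE, mp_mul, heA]
    refine Matrix.ext fun i j => Subtype.ext ?_
    rw [mp_coe, Matrix.zero_apply, map_zero]; rfl
  have hFF : F * F = F := by rw [hF, mp_mul, hff]
  have hEE : E' * E' = E' := by rw [hE, mp_mul, hee]
  have hzero : ∀ {a : ℕ} (ρ : Fin a → SS bs lam A), (∀ p, (ρ p : Module.End k (MM R B n)) = 0) →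
      ρ = 0 := fun ρ h => funext fun p => Subtype.ext (h p)
  have hinj : ∀ (r : R) (l : Fin n → R) (z : Fin m → R),
      (rho r : Module.End k (MM R B n)) = op bs lam A l [] z → r = 0 := by
    intro r l z h
    have bL := Module.Basis.ofVectorSpace k (Fin n → R)
    obtain ⟨x, hx⟩ := op_mem bs bL lam A l [] z
    refine (nf_zero_of bs bL lam A hnv τ0 hτ0 r (-x) ?_).1
    unfold nf
    rw [map_neg, hx, h, add_neg_cancel]
  have hX1 : s * A' * (s * A') = s * A' := by rw [← Matrix.mul_assoc, hsAs]
  have hX2 : F * (s * A') = 0 := by rw [← Matrix.mul_assoc, hFs, Matrix.zero_mul]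
  have hX3 : s * A' * F = 0 := by rw [Matrix.mul_assoc, hAF, Matrix.mul_zero]
  have hY1 : A' * s * (A' * s) = A' * s := by
    rw [Matrix.mul_assoc, ← Matrix.mul_assoc s, hsAs]
  have hY2 : E' * (A' * s) = 0 := by rw [← Matrix.mul_assoc, hEA, Matrix.zero_mul]
  have hY3 : A' * s * E' = 0 := by rw [Matrix.mul_assoc, hsE, Matrix.mul_zero]
  refine ⟨?_, hsAs, hsE, hFs, ?_, ?_⟩
  · rw [injective_iff_map_eq_zero]
    intro r hr
    have h1 : (rho r : Module.End k (MM R B n)) = 0 := congrArg Subtype.val hr
    exact hinj r 0 0 (by rw [h1]; exact (op_zero_l bs lam A _ _).symm)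
  · -- p1
    refine ⟨?_, ?_, ?_⟩
    · exact (alg1 F (s * A') hFF hX1 hX2 hX3).1
    · intro h
      apply hfne
      ext i j
      have h1 := congrFun (congrFun h i) j
      rw [Matrix.zero_apply] at h1
      have h2 : ((1 : Matrix (Fin n) (Fin n) (SS bs lam A)) - F) = mp bs lam A (1 - f) := by
        rw [hF]; unfold mp
        rw [Matrix.map_sub _ (map_sub (phi bs lam A)), Matrix.map_one _ (map_zero _) (map_one _)]
      rw [h2, Matrix.sub_apply, sub_eq_zero] at h1
      have h3 := congrArg (fun a : SS bs lam A => (a : Module.End k (MM R B n))) h1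
      simp only [mp_coe] at h3
      rw [hsA] at h3
      exact hinj _ _ _ h3
    · intro ρ v hρ hv hdot
      by_contra hcon
      rw [not_or] at hcon
      have hρF : ρ ᵥ* F = 0 := by
        rw [← hρ, vecMul_vecMul, (alg1 F (s * A') hFF hX1 hX2 hX3).2.1, vecMul_zero]
      have hρs : ρ ᵥ* s = 0 := by
        rw [← hρ, vecMul_vecMul, Matrix.sub_mul, Matrix.sub_mul, Matrix.one_mul, hFs, hsAs,
          sub_zero, sub_self, vecMul_zero]
      have hFv : F *ᵥ v = 0 := by
        rw [← hv, mulVec_mulVec, (alg1 F (s * A') hFF hX1 hX2 hX3).2.2.1, zero_mulVec]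
      have hsAv : (s * A') *ᵥ v = 0 := by
        rw [← hv, mulVec_mulVec, (alg1 F (s * A') hFF hX1 hX2 hX3).2.2.2.1, zero_mulVec]
      obtain ⟨p0, hp0⟩ : ∃ p, (v p : Module.End k (MM R B n)) ≠ 0 := by
        by_contra hc
        push Not at hc
        exact hcon.2 (hzero v hc)
      obtain ⟨τ, hτ⟩ : ∃ τ, (v p0 : Module.End k (MM R B n)) τ ≠ 0 := by
        by_contra hc
        push Not at hc
        exact hp0 (LinearMap.ext hc)
      apply hcon.1
      apply hzero
      refine wrap bs lam A hnv hlam n (fun p a => A a p) (Rw f) hZY1 f ?_ ?_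
        (fun p => (ρ p : Module.End k (MM R B n))) (fun p => (ρ p).2) ?_ (Cl e q1) hq1 ?_
        (fun p => (v p : Module.End k (MM R B n)) τ) ⟨p0, hτ⟩ ?_ ?_ ?_ ?_
      · intro a p'
        have := congrFun (congrFun hAf a) p'
        rw [Matrix.mul_apply] at this
        exact this
      · intro y hy hy2 p
        have h1 := hy2 p
        have h2 : ∀ i, y i * Rw f i p = y i * (1 : Matrix (Fin n) (Fin n) R) i p - y i * f i p :=
          fun i => by
            show y i * ((1 : Matrix (Fin n) (Fin n) R) - f) i p = _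
            rw [Matrix.sub_apply, mul_sub]
        rw [Finset.sum_congr rfl fun i _ => h2 i, Finset.sum_sub_distrib, hy p, sub_zero] at h1
        simpa [Matrix.one_apply] using h1
      · intro p'
        have h1 := congrArg (fun a : SS bs lam A => (a : Module.End k (MM R B n)))
          (congrFun hρF p')
        have h2 : ((ρ ᵥ* F) p') = ∑ p, ρ p * F p p' := rfl
        simp only [h2] at h1
        rw [coe_sum] at h1
        exact h1
      · have h1 := congrArg (fun a : SS bs lam A => (a : Module.End k (MM R B n)))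
          (congrFun hρs q1)
        have h2 : ((ρ ᵥ* s) q1) = ∑ p, ρ p * s p q1 := rfl
        simp only [h2] at h1
        rw [coe_sum] at h1
        exact h1
      · have h1 := congrArg (fun a : SS bs lam A => (a : Module.End k (MM R B n)) τ)
          (congrFun hsAv p1)
        have h2 : (((s * A') *ᵥ v) p1) = ∑ p, (s * A') p1 p * v p := rfl
        simp only [h2] at h1
        rw [coe_sum, LinearMap.sum_apply] at h1
        have h3 : ∀ p, (((s * A') p1 p * v p : SS bs lam A) : Module.End k (MM R B n)) τ =
            emb (Rw f p1) (th bs lam A (fun a => A a p) ((v p : Module.End k (MM R B n)) τ)) := by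
          intro p
          rw [coe_mul, hsA, Module.End.mul_apply, op_apply, Lw_nil]
          rfl
        rw [Finset.sum_congr rfl fun p _ => h3 p, ← map_sum] at h1
        exact emb_inj (Rw f p1) hp1 _ h1
      · intro p
        have h1 := congrArg (fun a : SS bs lam A => (a : Module.End k (MM R B n)) τ)
          (congrFun hFv p)
        have h2 : ((F *ᵥ v) p) = ∑ p', F p p' * v p' := rfl
        simp only [h2] at h1
        rw [coe_sum, LinearMap.sum_apply] at h1
        exact h1
      · intro C hC hfC
        have h1 : ∑ p, vecMulVec (fun a => A a p) (C p) = A * (Matrix.of C) := by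
          ext a b
          rw [Matrix.sum_apply, Matrix.mul_apply]
          rfl
        rw [h1, pr_apply, sub_eq_zero] at hC
        refine ⟨lam (A * Matrix.of C), fun p => ?_⟩
        funext b
        have h2 := hfr (fun i => C i b - lam (A * Matrix.of C) • (1 : Matrix (Fin n) (Fin n) R) i b)
          (by
            funext a
            have h3 := congrFun (congrFun hC a) b
            rw [Matrix.mul_apply, Matrix.smul_apply] at h3
            show ∑ i, A a i * (C i b - lam (A * Matrix.of C) • (1 : Matrix (Fin n) (Fin n) R) i b) = 0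
            simp only [mul_sub, Finset.sum_sub_distrib, mul_smul_comm]
            rw [← Finset.smul_sum]
            have h4 : ∑ i, A a i * (1 : Matrix (Fin n) (Fin n) R) i b = A a b := by
              simp [Matrix.one_apply]
            rw [h4, sub_eq_zero]
            exact h3)
        have h5 := congrFun h2 p
        have h6 : (f *ᵥ fun i => C i b - lam (A * Matrix.of C) • (1 : Matrix (Fin n) (Fin n) R) i b) p
            = ∑ i, f p i * C i b - lam (A * Matrix.of C) • f p b := by
          show ∑ i, f p i * (C i b - lam (A * Matrix.of C) • (1 : Matrix (Fin n) (Fin n) R) i b) = _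
          simp only [mul_sub, Finset.sum_sub_distrib, mul_smul_comm]
          rw [← Finset.smul_sum]
          have h4 : ∑ i, f p i * (1 : Matrix (Fin n) (Fin n) R) i b = f p b := by
            simp [Matrix.one_apply]
          rw [h4]
        have h7 : ∑ i, f p i * C i b = 0 := by
          have := congrFun (hfC p) b
          rw [Finset.sum_apply] at this
          exact this
        rw [h6, h7, zero_sub] at h5
        show C p b = lam (A * Matrix.of C) • ((1 : Matrix (Fin n) (Fin n) R) - f) p b
        rw [Matrix.sub_apply, smul_sub]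
        rw [eq_sub_iff_add_eq] at h5
        rw [← h5]
        abel
      · have h1 := congrArg (fun a : SS bs lam A => (a : Module.End k (MM R B n)) τ) hdot
        have h2 : (ρ ⬝ᵥ v) = ∑ p, ρ p * v p := rfl
        simp only [h2] at h1
        rw [coe_sum, LinearMap.sum_apply] at h1
        exact h1
  · -- p2
    refine ⟨?_, ?_, ?_⟩
    · exact (alg1 E' (A' * s) hEE hY1 hY2 hY3).1
    · intro h
      apply hene
      ext i j
      have h1 := congrFun (congrFun h i) j
      rw [Matrix.zero_apply] at h1
      have h2 : ((1 : Matrix (Fin m) (Fin m) (SS bs lam A)) - E') = mp bs lam A (1 - e) := by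
        rw [hE]; unfold mp
        rw [Matrix.map_sub _ (map_sub (phi bs lam A)), Matrix.map_one _ (map_zero _) (map_one _)]
      rw [h2, Matrix.sub_apply, sub_eq_zero] at h1
      have h3 := congrArg (fun a : SS bs lam A => (a : Module.End k (MM R B n))) h1
      simp only [mp_coe] at h3
      rw [hAs] at h3
      exact hinj _ _ _ h3
    · intro ρ v hρ hv hdot
      by_contra hcon
      rw [not_or] at hcon
      have hρE : ρ ᵥ* E' = 0 := by
        rw [← hρ, vecMul_vecMul, (alg1 E' (A' * s) hEE hY1 hY2 hY3).2.1, vecMul_zero]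
      have hρAs : ρ ᵥ* (A' * s) = 0 := by
        rw [← hρ, vecMul_vecMul, (alg1 E' (A' * s) hEE hY1 hY2 hY3).2.2.2.2, vecMul_zero]
      have hEv : E' *ᵥ v = 0 := by
        rw [← hv, mulVec_mulVec, (alg1 E' (A' * s) hEE hY1 hY2 hY3).2.2.1, zero_mulVec]
      have hsv : s *ᵥ v = 0 := by
        rw [← hv, mulVec_mulVec, Matrix.mul_sub, Matrix.mul_sub, Matrix.mul_one,
          ← Matrix.mul_assoc, hsE, hsAs, sub_zero, sub_self, zero_mulVec]
      obtain ⟨p0, hp0⟩ : ∃ p, (v p : Module.End k (MM R B n)) ≠ 0 := by
        by_contra hc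
        push Not at hc
        exact hcon.2 (hzero v hc)
      obtain ⟨τ, hτ⟩ : ∃ τ, (v p0 : Module.End k (MM R B n)) τ ≠ 0 := by
        by_contra hc
        push Not at hc
        exact hp0 (LinearMap.ext hc)
      apply hcon.1
      apply hzero
      refine wrap bs lam A hnv hlam m (Cl e) (fun p => A p) hZY2 e ?_ ?_
        (fun p => (ρ p : Module.End k (MM R B n))) (fun p => (ρ p).2) ?_ (Cl e q1) hq1 ?_
        (fun p => (v p : Module.End k (MM R B n)) τ) ⟨p0, hτ⟩ ?_ ?_ ?_ ?_
      · intro a p'
        have := congrFun (congrFun h1e a) p'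
        rw [Matrix.mul_apply] at this
        exact this
      · intro y hy hy2 p
        have h1 := hel y (funext hy2)
        rw [← h1]
        exact hy p
      · intro p'
        have h1 := congrArg (fun a : SS bs lam A => (a : Module.End k (MM R B n)))
          (congrFun hρE p')
        have h2 : ((ρ ᵥ* E') p') = ∑ p, ρ p * E' p p' := rfl
        simp only [h2] at h1
        rw [coe_sum] at h1
        exact h1
      · have h1 := congrArg (fun a : SS bs lam A => (a : Module.End k (MM R B n)))
          (congrFun hρAs q1)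
        have h2 : ((ρ ᵥ* (A' * s)) q1) = ∑ p, ρ p * (A' * s) p q1 := rfl
        simp only [h2] at h1
        rw [coe_sum] at h1
        simp only [coe_mul, hAs] at h1
        exact h1
      · have h1 := congrArg (fun a : SS bs lam A => (a : Module.End k (MM R B n)) τ)
          (congrFun hsv p1)
        have h2 : ((s *ᵥ v) p1) = ∑ p, s p1 p * v p := rfl
        simp only [h2] at h1
        rw [coe_sum, LinearMap.sum_apply] at h1
        have h3 : ∀ p, ((s p1 p * v p : SS bs lam A) : Module.End k (MM R B n)) τ =
            emb (Rw f p1) (th bs lam A (Cl e p) ((v p : Module.End k (MM R B n)) τ)) := by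
          intro p
          rw [coe_mul, hs, sM_coe, Module.End.mul_apply, op_apply, Lw_nil]
          rfl
        rw [Finset.sum_congr rfl fun p _ => h3 p, ← map_sum] at h1
        exact emb_inj (Rw f p1) hp1 _ h1
      · intro p
        have h1 := congrArg (fun a : SS bs lam A => (a : Module.End k (MM R B n)) τ)
          (congrFun hEv p)
        have h2 : ((E' *ᵥ v) p) = ∑ p', E' p p' * v p' := rfl
        simp only [h2] at h1
        rw [coe_sum, LinearMap.sum_apply] at h1
        exact h1
      · intro C hC hfC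
        have h1 : ∑ p, vecMulVec (Cl e p) (C p) = Matrix.of C := by
          have h8 : e * Matrix.of C = 0 := by
            ext a b
            rw [Matrix.mul_apply, Matrix.zero_apply]
            have := congrFun (hfC a) b
            rw [Finset.sum_apply] at this
            exact this
          have h9 : (1 - e) * Matrix.of C = Matrix.of C := by
            rw [Matrix.sub_mul, Matrix.one_mul, h8, sub_zero]
          conv_rhs => rw [← h9]
          ext a b
          rw [Matrix.sum_apply, Matrix.mul_apply]
          rfl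
        rw [h1, pr_apply, sub_eq_zero] at hC
        refine ⟨lam (Matrix.of C), fun p => ?_⟩
        funext b
        exact congrFun (congrFun hC p) b
      · have h1 := congrArg (fun a : SS bs lam A => (a : Module.End k (MM R B n)) τ) hdot
        have h2 : (ρ ⬝ᵥ v) = ∑ p, ρ p * v p := rfl
        simp only [h2] at h1
        rw [coe_sum, LinearMap.sum_apply] at h1
        exact h1

end

end Pool.Agent.H397R3.NORE

namespace H354P

open Pool.Agent.H397R3.NORE in
theorem taskE4_397 (k : Type) [Field k] : TaskE4 k := by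
  intro R _ _ _ m n A e f heA hAf hel hfr hnv
  have hA0 : A ≠ 0 := by
    rintro rfl
    exact hnv ⟨0, 0, by ext a b; simp [vecMulVec_apply]⟩
  let bs := Module.Basis.ofVectorSpace k (Matrix (Fin m) (Fin n) R)
  obtain ⟨lam, hlam⟩ : ∃ lam : Matrix (Fin m) (Fin n) R →ₗ[k] k, lam A = 1 := by
    by_contra hcon
    push Not at hcon
    apply hA0
    rw [← Module.forall_dual_apply_eq_zero_iff k]
    intro φ
    by_contra hφ
    refine hcon ((φ A)⁻¹ • φ) ?_
    rw [LinearMap.smul_apply, smul_eq_mul, inv_mul_cancel₀ hφ]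
  obtain ⟨i, j, hij⟩ : ∃ i j, A i j ≠ 0 := by
    by_contra hcon
    push Not at hcon
    exact hA0 (Matrix.ext hcon)
  let τ0 : MM R (Module.Basis.ofVectorSpaceIndex k (Matrix (Fin m) (Fin n) R)) n :=
    Finsupp.single [] (A i)
  have hτ0 : τ0 ≠ 0 := by
    intro h
    have h1 := DFunLike.congr_fun h []
    rw [Finsupp.single_eq_same, Finsupp.zero_apply] at h1
    exact hij (congrFun h1 j)
  obtain ⟨h1, h2, h3, h4, h5, h6⟩ := main bs lam A e f heA hAf hel hfr hnv hlam τ0 hτ0
  exact ⟨SS bs lam A, inferInstance, inferInstance, SS_dom bs lam A hnv τ0 hτ0, phi bs lam A,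
    sM bs lam A e f, h1, h2, h3, h4, h5, h6⟩

end H354P
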