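import Mathlib

set_option autoImplicit false

open Matrix
open scoped Classical

namespace Pool.Agent.H397R3.NORE

section

variable {k R : Type} [Field k] [Ring R] [Algebra k R] {m n : ℕ} {B I : Type}
  (bs : Module.Basis B k (Matrix (Fin m) (Fin n) R)) (bL : Module.Basis I k (Fin n → R))
  (lam : Matrix (Fin m) (Fin n) R →ₗ[k] k) (A : Matrix (Fin m) (Fin n) R)

/-- words -/
abbrev TT (k B : Type) [Field k] := List B →₀ k

/-- the module on which everything acts -/
abbrev MM (R B : Type) [Ring R] (n : ℕ) := List B →₀ (Fin n → R)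

noncomputable def Lw (w : List B) : TT k B →ₗ[k] TT k B := Finsupp.lmapDomain k k (fun u => w ++ u)

theorem Lw_apply (w u : List B) (t : TT k B) : Lw w t (w ++ u) = t u := by
  unfold Lw
  rw [Finsupp.lmapDomain_apply]
  exact Finsupp.mapDomain_apply (fun a b h => List.append_cancel_left h) t u

theorem Lw_not (w u : List B) (t : TT k B) (h : ∀ v, w ++ v ≠ u) : Lw w t u = 0 := by
  unfold Lw
  rw [Finsupp.lmapDomain_apply]
  apply Finsupp.mapDomain_of_notMem_range
  rintro ⟨v, hv⟩
  exact h v hv

theorem Lw_single (w u : List B) (c : k) :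
    Lw w (Finsupp.single u c) = (Finsupp.single (w ++ u) c : TT k B) := by
  unfold Lw
  rw [Finsupp.lmapDomain_apply, Finsupp.mapDomain_single]

theorem Lw_comp (w w' : List B) : (Lw w : TT k B →ₗ[k] TT k B) ∘ₗ Lw w' = Lw (w ++ w') := by
  apply Finsupp.lhom_ext
  intro u c
  simp only [LinearMap.comp_apply, Lw_single, List.append_assoc]

theorem Lw_nil : (Lw [] : TT k B →ₗ[k] TT k B) = LinearMap.id := by
  apply Finsupp.lhom_ext
  intro u c
  simp [Lw_single]

/-- projection modulo `A` -/
noncomputable def pr : Matrix (Fin m) (Fin n) R →ₗ[k] Matrix (Fin m) (Fin n) R :=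
  LinearMap.id - lam.smulRight A

theorem pr_apply (Y : Matrix (Fin m) (Fin n) R) : pr lam A Y = Y - lam Y • A := rfl

/-- left multiplication by `iota Y` -/
noncomputable def J : Matrix (Fin m) (Fin n) R →ₗ[k] (TT k B →ₗ[k] TT k B) :=
  lam.smulRight LinearMap.id +
    (Finsupp.linearCombination k (fun b : B => (Lw [b] : TT k B →ₗ[k] TT k B))).comp
      (bs.repr.toLinearMap.comp (pr lam A))

theorem J_apply (Y : Matrix (Fin m) (Fin n) R) :
    J bs lam A Y = lam Y • LinearMap.id +
      (bs.repr (pr lam A Y)).sum (fun b c => c • (Lw [b] : TT k B →ₗ[k] TT k B)) := rfl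

theorem J_A (h : lam A = 1) : J bs lam A A = LinearMap.id := by
  rw [J_apply, pr_apply, h]
  simp

theorem J_single_ne (Y : Matrix (Fin m) (Fin n) R) (w' : List B) (b : B) (w0 : List B)
    (h : w'.length ≤ w0.length) :
    J bs lam A Y (Finsupp.single w' 1) (b :: w0) =
      if w' = w0 then bs.repr (pr lam A Y) b else 0 := by
  rw [J_apply]
  simp only [LinearMap.add_apply, LinearMap.smul_apply, LinearMap.id_apply, Finsupp.add_apply,
    Finsupp.smul_apply]
  have h1 : (Finsupp.single w' (1:k) : TT k B) (b :: w0) = 0 := by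
    rw [Finsupp.single_apply, if_neg]
    rintro rfl
    simp at h
  rw [h1, smul_zero, zero_add]
  unfold Finsupp.sum
  rw [LinearMap.sum_apply, Finsupp.finsetSum_apply]
  have h2 : ∀ b', ((bs.repr (pr lam A Y)) b' • (Lw [b'] : TT k B →ₗ[k] TT k B))
      (Finsupp.single w' 1) (b :: w0) =
      if b' = b then (if w' = w0 then bs.repr (pr lam A Y) b else 0) else 0 := by
    intro b'
    rw [LinearMap.smul_apply, Finsupp.smul_apply, Lw_single, Finsupp.single_apply]
    by_cases hb : b' = b
    · subst hb
      by_cases hw : w' = w0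
      · subst hw; simp
      · simp [hw]
    · simp [hb]
  rw [Finset.sum_congr rfl fun b' _ => h2 b', Finset.sum_ite_eq']
  split_ifs with h3 h4
  · rfl
  · rfl
  · rw [Finsupp.notMem_support_iff] at h3
    exact h3.symm
  · rfl

theorem J_single_big (Y : Matrix (Fin m) (Fin n) R) (w' u : List B)
    (h : w'.length + 1 < u.length) : J bs lam A Y (Finsupp.single w' 1) u = 0 := by
  rw [J_apply]
  simp only [LinearMap.add_apply, LinearMap.smul_apply, LinearMap.id_apply, Finsupp.add_apply,
    Finsupp.smul_apply]
  have h1 : (Finsupp.single w' (1:k) : TT k B) u = 0 := by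
    rw [Finsupp.single_apply, if_neg]
    rintro rfl
    omega
  rw [h1, smul_zero, zero_add]
  unfold Finsupp.sum
  rw [LinearMap.sum_apply, Finsupp.finsetSum_apply]
  apply Finset.sum_eq_zero
  intro b' _
  rw [LinearMap.smul_apply, Finsupp.smul_apply, Lw_single, Finsupp.single_apply, if_neg, smul_zero]
  rintro rfl
  simp at h

/-- `l ⊗ t` -/
noncomputable def emb (l : Fin n → R) : TT k B →ₗ[k] MM R B n :=
  Finsupp.mapRange.linearMap (LinearMap.toSpanSingleton k _ l)

theorem emb_apply (l : Fin n → R) (t : TT k B) (w : List B) : emb l t w = t w • l := rfl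

theorem emb_single (l : Fin n → R) (w : List B) (c : k) :
    (emb l (Finsupp.single w c) : MM R B n) = Finsupp.single w (c • l) := by
  unfold emb
  rw [Finsupp.mapRange.linearMap_apply, Finsupp.mapRange_single]
  rfl

/-- rank one matrices, linear in the row -/
noncomputable def vmv (q : Fin m → R) : (Fin n → R) →ₗ[k] Matrix (Fin m) (Fin n) R where
  toFun l := vecMulVec q l
  map_add' l l' := by
    ext a b; simp [vecMulVec_apply, mul_add]
  map_smul' c l := by
    ext a b; simp [vecMulVec_apply]

/-- `θ_q (l ⊗ w) = iota (q l) w` -/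
noncomputable def th (q : Fin m → R) : MM R B n →ₗ[k] TT k B :=
  Finsupp.lsum k fun w : List B =>
    ((LinearMap.applyₗ (Finsupp.single w (1:k) : TT k B)).comp (J bs lam A)).comp (vmv q)

theorem th_single (q : Fin m → R) (w : List B) (l : Fin n → R) :
    th bs lam A q (Finsupp.single w l) = J bs lam A (vecMulVec q l) (Finsupp.single w 1) := by
  unfold th
  rw [Finsupp.lsum_single]
  rfl

theorem th_emb (q : Fin m → R) (l : Fin n → R) :
    (th bs lam A q : MM R B n →ₗ[k] TT k B) ∘ₗ emb l = J bs lam A (vecMulVec q l) := by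
  apply Finsupp.lhom_ext
  intro w c
  rw [LinearMap.comp_apply, emb_single, th_single]
  have h1 : vecMulVec q (c • l) = c • vecMulVec q l := (vmv (k := k) q).map_smul c l
  rw [h1, map_smul, LinearMap.smul_apply, ← map_smul, Finsupp.smul_single, smul_eq_mul, mul_one]

theorem th_add (q q' : Fin m → R) : th bs lam A (q + q') = th bs lam A q + th bs lam A q' := by
  apply Finsupp.lhom_ext
  intro w l
  rw [LinearMap.add_apply, th_single, th_single, th_single, ← LinearMap.add_apply, ← map_add]
  congr 2
  ext a b; simp [vecMulVec_apply, add_mul]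

theorem th_smul (c : k) (q : Fin m → R) : th bs lam A (c • q) = c • th bs lam A q := by
  apply Finsupp.lhom_ext
  intro w l
  rw [LinearMap.smul_apply, th_single, th_single, ← LinearMap.smul_apply, ← map_smul]
  congr 2
  ext a b; simp [vecMulVec_apply]

theorem th_smulR (q : Fin m → R) (r : R) (c : MM R B n) :
    th bs lam A q (r • c) = th bs lam A (fun a => q a * r) c := by
  induction c using Finsupp.induction_linear with
  | zero => simp
  | add f g hf hg => rw [smul_add, map_add, map_add, hf, hg]
  | single w l =>
    rw [Finsupp.smul_single, th_single, th_single]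
    congr 2
    ext a b; simp [vecMulVec_apply, mul_assoc]

theorem emb_smulR (r : R) (l : Fin n → R) (t : TT k B) :
    r • (emb l t : MM R B n) = emb (r • l) t := by
  ext w : 1
  rw [Finsupp.smul_apply, emb_apply, emb_apply, smul_comm]

theorem th_top (q : Fin m → R) (c : MM R B n) (w0 : List B)
    (hc : ∀ w', w0.length < w'.length → c w' = 0) (b : B) :
    th bs lam A q c (b :: w0) = bs.repr (pr lam A (vecMulVec q (c w0))) b := by
  have e1 : th bs lam A q c (b :: w0) =
      c.sum (fun w' l => th bs lam A q (Finsupp.single w' l) (b :: w0)) := by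
    conv_lhs => rw [← Finsupp.sum_single c]
    rw [map_finsuppSum, Finsupp.sum_apply]
  rw [e1]
  unfold Finsupp.sum
  have e2 : ∀ w' ∈ c.support, th bs lam A q (Finsupp.single w' (c w')) (b :: w0) =
      if w' = w0 then bs.repr (pr lam A (vecMulVec q (c w0))) b else 0 := by
    intro w' hw'
    rw [th_single, J_single_ne]
    · split_ifs with h
      · rw [h]
      · rfl
    · by_contra hcon
      rw [Finsupp.mem_support_iff] at hw'
      exact hw' (hc w' (not_le.mp hcon))
  rw [Finset.sum_congr rfl e2, Finset.sum_ite_eq']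
  split_ifs with h
  · rfl
  · rw [Finsupp.notMem_support_iff] at h
    have h5 : vecMulVec q (c w0) = 0 := by
      rw [h]; ext a b; simp [vecMulVec_apply]
    rw [h5, map_zero, map_zero, Finsupp.zero_apply]

theorem th_big (q : Fin m → R) (c : MM R B n) (N : ℕ)
    (hc : ∀ w', N < w'.length → c w' = 0) (u : List B) (hu : N + 1 < u.length) :
    th bs lam A q c u = 0 := by
  have e1 : th bs lam A q c u =
      c.sum (fun w' l => th bs lam A q (Finsupp.single w' l) u) := by
    conv_lhs => rw [← Finsupp.sum_single c]
    rw [map_finsuppSum, Finsupp.sum_apply]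
  rw [e1]
  apply Finset.sum_eq_zero
  intro w' hw'
  show th bs lam A q (Finsupp.single w' (c w')) u = 0
  rw [th_single]
  apply J_single_big
  by_contra hcon
  rw [Finsupp.mem_support_iff] at hw'
  apply hw' (hc w' _)
  omega

/-- `l ⊗ w ⊗ q` -/
noncomputable def op (l : Fin n → R) (w : List B) (q : Fin m → R) : Module.End k (MM R B n) :=
  emb l ∘ₗ Lw w ∘ₗ th bs lam A q

theorem op_apply (l : Fin n → R) (w : List B) (q : Fin m → R) (c : MM R B n) :
    op bs lam A l w q c = emb l (Lw w (th bs lam A q c)) := rfl

theorem emb_add (l l' : Fin n → R) : (emb (l + l') : TT k B →ₗ[k] MM R B n) = emb l + emb l' := by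
  apply LinearMap.ext
  intro t
  ext w : 1
  rw [LinearMap.add_apply, Finsupp.add_apply, emb_apply, emb_apply, emb_apply, smul_add]

theorem emb_smul (c : k) (l : Fin n → R) : (emb (c • l) : TT k B →ₗ[k] MM R B n) = c • emb l := by
  apply LinearMap.ext
  intro t
  ext w : 1
  rw [LinearMap.smul_apply, Finsupp.smul_apply, emb_apply, emb_apply, smul_comm]

/-- `op` as a linear map in `q` -/
noncomputable def opq (l : Fin n → R) (w : List B) : (Fin m → R) →ₗ[k] Module.End k (MM R B n) where
  toFun q := op bs lam A l w q
  map_add' q q' := by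
    apply LinearMap.ext; intro c
    simp only [op_apply, th_add, LinearMap.add_apply, map_add]
  map_smul' a q := by
    apply LinearMap.ext; intro c
    simp only [op_apply, th_smul, LinearMap.smul_apply, map_smul, RingHom.id_apply]

/-- `op` as a linear map in `l` -/
noncomputable def opl (w : List B) (q : Fin m → R) : (Fin n → R) →ₗ[k] Module.End k (MM R B n) where
  toFun l := op bs lam A l w q
  map_add' q q' := by
    apply LinearMap.ext; intro c
    simp only [op_apply, emb_add, LinearMap.add_apply]
  map_smul' a q := by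
    apply LinearMap.ext; intro c
    simp only [op_apply, emb_smul, LinearMap.smul_apply, RingHom.id_apply]

/-- normal forms -/
noncomputable def Psi : ((I × List B) →₀ (Fin m → R)) →ₗ[k] Module.End k (MM R B n) :=
  Finsupp.lsum k fun iw : I × List B => opq bs lam A (bL iw.1) iw.2

theorem Psi_single (iw : I × List B) (q : Fin m → R) :
    Psi bs bL lam A (Finsupp.single iw q) = op bs lam A (bL iw.1) iw.2 q := by
  unfold Psi
  rw [Finsupp.lsum_single]
  rfl

theorem op_mem (l : Fin n → R) (w : List B) (q : Fin m → R) :
    op bs lam A l w q ∈ LinearMap.range (Psi bs bL lam A) := by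
  have h : (⊤ : Submodule k (Fin n → R)) ≤
      (LinearMap.range (Psi bs bL lam A)).comap (opl bs lam A w q) := by
    rw [← bL.span_eq, Submodule.span_le]
    rintro _ ⟨i, rfl⟩
    exact ⟨Finsupp.single (i, w) q, Psi_single bs bL lam A (i, w) q⟩
  exact h (Submodule.mem_top (x := l))

/-- the ideal -/
noncomputable def NN : Submodule k (Module.End k (MM R B n)) :=
  Submodule.span k {a | ∃ l w q, a = op bs lam A l w q}

theorem NN_le : NN bs lam A ≤ LinearMap.range (Psi bs bL lam A) := by
  unfold NN
  rw [Submodule.span_le]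
  rintro _ ⟨l, w, q, rfl⟩
  exact op_mem bs bL lam A l w q

/-- the action of `R` -/
noncomputable def rho : R →ₐ[k] Module.End k (MM R B n) := Algebra.lsmul k k (MM R B n)

theorem rho_apply (r : R) (c : MM R B n) : (rho r : Module.End k (MM R B n)) c = r • c := rfl

theorem rho_op (r : R) (l : Fin n → R) (w : List B) (q : Fin m → R) :
    rho r * op bs lam A l w q = op bs lam A (r • l) w q := by
  apply LinearMap.ext; intro c
  rw [Module.End.mul_apply, rho_apply, op_apply, op_apply, emb_smulR]

theorem op_rho (r : R) (l : Fin n → R) (w : List B) (q : Fin m → R) :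
    op bs lam A l w q * rho r = op bs lam A l w (fun a => q a * r) := by
  apply LinearMap.ext; intro c
  rw [Module.End.mul_apply, rho_apply, op_apply, op_apply, th_smulR]

theorem op_op (l : Fin n → R) (w : List B) (q : Fin m → R) (l' : Fin n → R) (w' : List B)
    (q' : Fin m → R) : op bs lam A l w q * op bs lam A l' w' q' =
      lam (vecMulVec q l') • op bs lam A l (w ++ w') q' +
      (bs.repr (pr lam A (vecMulVec q l'))).sum
        (fun b c => c • op bs lam A l (w ++ (b :: w')) q') := by
  apply LinearMap.ext; intro c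
  rw [Module.End.mul_apply, op_apply, op_apply]
  have h1 : th bs lam A q (emb l' (Lw w' (th bs lam A q' c))) =
      J bs lam A (vecMulVec q l') (Lw w' (th bs lam A q' c)) := by
    rw [← th_emb]; rfl
  rw [h1, J_apply, LinearMap.add_apply, map_add, map_add, LinearMap.add_apply]
  congr 1
  · rw [LinearMap.smul_apply, LinearMap.id_apply, map_smul, map_smul, LinearMap.smul_apply,
      op_apply]
    congr 2
    have := LinearMap.congr_fun (Lw_comp (k := k) w w') (th bs lam A q' c)
    exact this
  · unfold Finsupp.sum
    rw [LinearMap.sum_apply, map_sum, map_sum, LinearMap.sum_apply]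
    refine Finset.sum_congr rfl fun b _ => ?_
    rw [LinearMap.smul_apply, map_smul, map_smul, LinearMap.smul_apply, op_apply]
    congr 2
    have h2 := LinearMap.congr_fun (Lw_comp (k := k) [b] w') (th bs lam A q' c)
    have h3 := LinearMap.congr_fun (Lw_comp (k := k) w ([b] ++ w')) (th bs lam A q' c)
    rw [LinearMap.comp_apply] at h2 h3
    rw [h2, h3]
    rfl

end

end Pool.Agent.H397R3.NORE
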