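import Pool.Agent.H397R3.NORE.Base

set_option autoImplicit false

open Matrix
open scoped Classical

namespace Pool.Agent.H397R3.NORE

section

variable {k R : Type} [Field k] [Ring R] [Algebra k R] {m n : ℕ} {B I : Type}
  (bs : Module.Basis B k (Matrix (Fin m) (Fin n) R)) (bL : Module.Basis I k (Fin n → R))
  (lam : Matrix (Fin m) (Fin n) R →ₗ[k] k) (A : Matrix (Fin m) (Fin n) R)

theorem Lw_top (w w0 v : List B) (t : TT k B) (h : w.length ≤ w0.length)
    (ht : ∀ u, v.length < u.length → t u = 0) :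
    Lw w t (w0 ++ v) = if w = w0 then t v else 0 := by
  split_ifs with hw
  · subst hw; exact Lw_apply w v t
  · by_cases hex : ∃ u, w ++ u = w0 ++ v
    · obtain ⟨u, hu⟩ := hex
      have hlen := congrArg List.length hu
      rw [List.length_append, List.length_append] at hlen
      have hne : w.length ≠ w0.length := by
        intro he
        exact hw (List.append_inj hu he).1
      rw [← hu, Lw_apply]
      apply ht
      omega
    · push Not at hex
      exact Lw_not w _ t hex

theorem Psi_apply (x : (I × List B) →₀ (Fin m → R)) :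
    Psi bs bL lam A x = x.sum (fun iw q => op bs lam A (bL iw.1) iw.2 q) := by
  unfold Psi
  rw [Finsupp.lsum_apply]
  rfl

theorem Psi_top (x : (I × List B) →₀ (Fin m → R)) (c : MM R B n) (w0 w0' : List B) (i : I) (b : B)
    (hx : ∀ iw : I × List B, w0.length < iw.2.length → x iw = 0)
    (hc : ∀ w', w0'.length < w'.length → c w' = 0) :
    bL.repr ((Psi bs bL lam A x c) (w0 ++ b :: w0')) i =
      bs.repr (pr lam A (vecMulVec (x (i, w0)) (c w0'))) b := by
  rw [Psi_apply]
  unfold Finsupp.sum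
  rw [LinearMap.sum_apply, Finsupp.finsetSum_apply, map_sum, Finsupp.finsetSum_apply]
  have e2 : ∀ iw ∈ x.support, bL.repr ((op bs lam A (bL iw.1) iw.2 (x iw) c) (w0 ++ b :: w0')) i =
      if iw = (i, w0) then bs.repr (pr lam A (vecMulVec (x (i, w0)) (c w0'))) b else 0 := by
    intro iw hiw
    have hle : iw.2.length ≤ w0.length := by
      by_contra hcon
      rw [Finsupp.mem_support_iff] at hiw
      exact hiw (hx iw (not_le.mp hcon))
    rw [op_apply, emb_apply, map_smul, Module.Basis.repr_self, Finsupp.smul_apply, smul_eq_mul,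
      Lw_top iw.2 w0 (b :: w0') _ hle (by
        intro u hu
        exact th_big bs lam A _ c w0'.length hc u (by simpa using hu))]
    obtain ⟨i', w⟩ := iw
    by_cases h1 : w = w0
    · subst h1
      by_cases h2 : i' = i
      · subst h2
        simp only [if_true, Finsupp.single_eq_same, mul_one]
        exact th_top bs lam A _ c w0' hc b
      · rw [Finsupp.single_apply, if_neg h2, mul_zero, if_neg]
        intro h3; exact h2 (Prod.mk.inj h3).1
    · rw [if_neg h1, zero_mul, if_neg]
      intro h3; exact h1 (Prod.mk.inj h3).2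
  rw [Finset.sum_congr rfl e2, Finset.sum_ite_eq']
  split_ifs with h
  · rfl
  · rw [Finsupp.notMem_support_iff] at h
    have h5 : vecMulVec (x (i, w0)) (c w0') = 0 := by
      rw [h]; ext a b; simp [vecMulVec_apply]
    rw [h5, map_zero, map_zero, Finsupp.zero_apply]

/-- normal form -/
noncomputable def nf (r : R) (x : (I × List B) →₀ (Fin m → R)) : Module.End k (MM R B n) :=
  rho r + Psi bs bL lam A x

theorem nf_apply (r : R) (x : (I × List B) →₀ (Fin m → R)) (c : MM R B n) :
    nf bs bL lam A r x c = r • c + Psi bs bL lam A x c := rfl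

theorem nz (q : ℕ) (r : Fin q → R) (x : Fin q → ((I × List B) →₀ (Fin m → R)))
    (c : Fin q → MM R B n) (w0' : List B)
    (hc : ∀ p w', w0'.length < w'.length → c p w' = 0)
    (hcan : ∀ iw, pr lam A (∑ p, vecMulVec (x p iw) (c p w0')) = 0 → ∀ p, x p iw = 0)
    (h : ∑ p, nf bs bL lam A (r p) (x p) (c p) = 0) : ∀ p, x p = 0 := by
  by_contra hne
  push Not at hne
  obtain ⟨p0, hp0⟩ := hne
  let U : Finset (I × List B) := Finset.univ.biUnion (fun p => (x p).support)
  have hU : U.Nonempty := by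
    obtain ⟨iw, hiw⟩ := Finsupp.support_nonempty_iff.mpr hp0
    exact ⟨iw, Finset.mem_biUnion.mpr ⟨p0, Finset.mem_univ _, hiw⟩⟩
  obtain ⟨iw0, hmem, hmax⟩ := Finset.exists_max_image U (fun iw => iw.2.length) hU
  have hx : ∀ p, ∀ iw : I × List B, iw0.2.length < iw.2.length → x p iw = 0 := by
    intro p iw hlt
    by_contra hcon
    have h1 : iw ∈ U := Finset.mem_biUnion.mpr
      ⟨p, Finset.mem_univ _, Finsupp.mem_support_iff.mpr hcon⟩
    have h2 := hmax iw h1
    omega
  have key : pr lam A (∑ p, vecMulVec (x p iw0) (c p w0')) = 0 := by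
    apply bs.repr.injective
    apply Finsupp.ext
    intro b
    rw [map_zero, Finsupp.zero_apply, map_sum, map_sum, Finsupp.finsetSum_apply]
    have h1 := congrArg (fun z : MM R B n => bL.repr (z (iw0.2 ++ b :: w0')) iw0.1) h
    simp only [Finsupp.zero_apply, map_zero] at h1
    rw [Finsupp.finsetSum_apply, map_sum, Finsupp.finsetSum_apply] at h1
    rw [← h1]
    refine Finset.sum_congr rfl fun p _ => ?_
    rw [nf_apply, Finsupp.add_apply, map_add, Finsupp.add_apply,
      Finsupp.smul_apply, hc p (iw0.2 ++ b :: w0') (by simp; omega), smul_zero, map_zero,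
      Finsupp.zero_apply, zero_add, Psi_top bs bL lam A (x p) (c p) iw0.2 w0' iw0.1 b (hx p) (hc p)]
  obtain ⟨p, _, hp⟩ := Finset.mem_biUnion.mp hmem
  exact (Finsupp.mem_support_iff.mp hp) (hcan iw0 key p)

theorem exists_top (q : ℕ) (c : Fin q → MM R B n) (hne : ∃ p, c p ≠ 0) :
    ∃ w0' : List B, (∀ p w', w0'.length < w'.length → c p w' = 0) ∧ ∃ p, c p w0' ≠ 0 := by
  obtain ⟨p0, hp0⟩ := hne
  let U : Finset (List B) := Finset.univ.biUnion (fun p => (c p).support)
  have hU : U.Nonempty := by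
    obtain ⟨iw, hiw⟩ := Finsupp.support_nonempty_iff.mpr hp0
    exact ⟨iw, Finset.mem_biUnion.mpr ⟨p0, Finset.mem_univ _, hiw⟩⟩
  obtain ⟨w0, hmem, hmax⟩ := Finset.exists_max_image U (fun w => w.length) hU
  refine ⟨w0, ?_, ?_⟩
  · intro p w' hlt
    by_contra hcon
    have h1 : w' ∈ U := Finset.mem_biUnion.mpr
      ⟨p, Finset.mem_univ _, Finsupp.mem_support_iff.mpr hcon⟩
    have h2 := hmax w' h1
    omega
  · obtain ⟨p, _, hp⟩ := Finset.mem_biUnion.mp hmem
    exact ⟨p, Finsupp.mem_support_iff.mp hp⟩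

theorem rank1 [IsDomain R] (hnv : ¬ ∃ (c : Fin m → R) (d : Fin n → R), A = vecMulVec c d)
    (y : Fin m → R) (l : Fin n → R) (hl : l ≠ 0) (h : pr lam A (vecMulVec y l) = 0) : y = 0 := by
  rw [pr_apply, sub_eq_zero] at h
  by_cases hc : lam (vecMulVec y l) = 0
  · rw [hc, zero_smul] at h
    obtain ⟨b, hb⟩ : ∃ b, l b ≠ 0 := by
      by_contra hcon
      push Not at hcon
      exact hl (funext hcon)
    funext a
    have h1 := congrFun (congrFun h a) b
    rw [vecMulVec_apply] at h1
    rcases mul_eq_zero.mp h1 with h2 | h2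
    · exact h2
    · exact absurd h2 hb
  · exfalso
    apply hnv
    refine ⟨(lam (vecMulVec y l))⁻¹ • y, l, ?_⟩
    have h1 : vecMulVec ((lam (vecMulVec y l))⁻¹ • y) l =
        (lam (vecMulVec y l))⁻¹ • vecMulVec y l := by
      ext a b; simp [vecMulVec_apply]
    rw [h1]
    conv_rhs => rw [h]
    rw [map_smul, smul_eq_mul]
    have h6 : lam A = 1 ∨ True := Or.inr trivial
    rw [smul_smul]
    have h7 : (lam (vecMulVec y l) * lam A) • A = lam (vecMulVec y l) • A := by
      have := congrArg lam h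
      rw [map_smul, smul_eq_mul] at this
      rw [← this]
    have h8 : lam (vecMulVec y l) * lam A = lam (vecMulVec y l) := by
      have := congrArg lam h
      rw [map_smul, smul_eq_mul] at this
      exact this.symm
    rw [h8, inv_mul_cancel₀ hc, one_smul]

theorem inj1 [IsDomain R] (hnv : ¬ ∃ (c : Fin m → R) (d : Fin n → R), A = vecMulVec c d)
    (r : R) (x : (I × List B) →₀ (Fin m → R)) (τ : MM R B n) (hτ : τ ≠ 0)
    (h : nf bs bL lam A r x τ = 0) : r = 0 ∧ x = 0 := by
  obtain ⟨w0', hw, p, hp⟩ := exists_top 1 (fun _ => τ) ⟨0, hτ⟩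
  have hx : x = 0 := by
    refine nz bs bL lam A 1 (fun _ => r) (fun _ => x) (fun _ => τ) w0' hw ?_ ?_ 0
    · intro iw h1 _
      rw [Fin.sum_univ_one] at h1
      exact rank1 lam A hnv _ _ hp h1
    · rw [Fin.sum_univ_one]; exact h
  refine ⟨?_, hx⟩
  rw [hx, nf_apply, map_zero, LinearMap.zero_apply, add_zero] at h
  have h1 := congrArg (fun z : MM R B n => z w0') h
  simp only [Finsupp.smul_apply, Finsupp.zero_apply] at h1
  obtain ⟨b, hb⟩ : ∃ b, τ w0' b ≠ 0 := by
    by_contra hcon
    push Not at hcon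
    exact hp (funext hcon)
  have h2 := congrFun h1 b
  rw [Pi.smul_apply, smul_eq_mul] at h2
  rcases mul_eq_zero.mp h2 with h3 | h3
  · exact h3
  · exact absurd h3 hb

theorem emb_inj [IsDomain R] (l : Fin n → R) (hl : l ≠ 0) (t : TT k B)
    (h : (emb l t : MM R B n) = 0) : t = 0 := by
  ext w
  have h1 := congrArg (fun z : MM R B n => z w) h
  simp only [emb_apply, Finsupp.zero_apply] at h1
  rcases smul_eq_zero.mp h1 with h2 | h2
  · exact h2
  · exact absurd h2 hl

theorem sum_op (hA : lam A = 1) (q : ℕ) (Z : Fin q → Fin m → R) (Y : Fin q → Fin n → R)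
    (hZY : ∑ p, vecMulVec (Z p) (Y p) = A) (l : Fin n → R) (w : List B) (z : Fin m → R) :
    ∑ p, op bs lam A l w (Z p) * op bs lam A (Y p) [] z = op bs lam A l w z := by
  apply LinearMap.ext
  intro c
  rw [LinearMap.sum_apply]
  have h1 : ∀ p, (op bs lam A l w (Z p) * op bs lam A (Y p) [] z) c =
      emb l (Lw w (J bs lam A (vecMulVec (Z p) (Y p)) (th bs lam A z c))) := by
    intro p
    rw [Module.End.mul_apply, op_apply, op_apply, Lw_nil, LinearMap.id_apply, ← th_emb]
    rfl
  rw [Finset.sum_congr rfl fun p _ => h1 p, ← map_sum, ← map_sum, ← LinearMap.sum_apply, ← map_sum,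
    hZY, J_A bs lam A hA, op_apply]
  rfl

/-- rank one matrices, linear in the column -/
noncomputable def vmv' (l : Fin n → R) : (Fin m → R) →ₗ[k] Matrix (Fin m) (Fin n) R where
  toFun q := vecMulVec q l
  map_add' q q' := by
    ext a b; simp [vecMulVec_apply, add_mul]
  map_smul' c q := by
    ext a b; simp [vecMulVec_apply]

theorem Psi_zz (mu : (I × List B) →₀ k) (z : Fin m → R) :
    Psi bs bL lam A (Finsupp.mapRange.linearMap (LinearMap.toSpanSingleton k _ z) mu) =
      mu.sum (fun iw a => a • op bs lam A (bL iw.1) iw.2 z) := by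
  induction mu using Finsupp.induction_linear with
  | zero => simp
  | add f g hf hg =>
    rw [map_add, map_add, hf, hg, Finsupp.sum_add_index']
    · intro i; rw [zero_smul]
    · intro i a b; rw [add_smul]
  | single iw a =>
    rw [Finsupp.mapRange.linearMap_apply, Finsupp.mapRange_single, Psi_single,
      Finsupp.sum_single_index (by rw [zero_smul])]
    exact (opq bs lam A (bL iw.1) iw.2).map_smul a z

theorem gen [IsDomain R] (hnv : ¬ ∃ (c : Fin m → R) (d : Fin n → R), A = vecMulVec c d)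
    (hA : lam A = 1) (q : ℕ) (Z : Fin q → Fin m → R) (Y : Fin q → Fin n → R)
    (hZY : ∑ p, vecMulVec (Z p) (Y p) = A) (g : Fin q → Fin q → R)
    (hZg : ∀ a p', ∑ p, Z p a * g p p' = Z p' a)
    (hcan : ∀ y : Fin q → R, (∀ p', ∑ p, y p * g p p' = y p') → (∀ b, ∑ p, y p * Y p b = 0) →
      ∀ p, y p = 0)
    (c : Fin q → MM R B n) (w0' : List B) (κ : k) (hκ : κ ≠ 0)
    (hc : ∀ p w', w0'.length < w'.length → c p w' = 0) (hcw : ∀ p, c p w0' = κ • Y p)
    (hth : ∑ p, th bs lam A (Z p) (c p) = 0)
    (r : Fin q → R) (x : Fin q → ((I × List B) →₀ (Fin m → R)))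
    (hrg : ∀ p', ∑ p, r p * g p p' = r p')
    (hxg : ∀ iw a p', ∑ p, x p iw a * g p p' = x p' iw a)
    (h : ∑ p, nf bs bL lam A (r p) (x p) (c p) = 0)
    (z : Fin m → R) (hz : z ≠ 0)
    (hs : ∑ p, nf bs bL lam A (r p) (x p) * op bs lam A (Y p) [] z = 0)
    (τ : MM R B n) (hτ : τ ≠ 0) :
    (∀ p, r p = 0) ∧ ∀ p, x p = 0 := by
  let mu : (I × List B) →₀ k := ∑ p, Finsupp.mapRange.linearMap (lam.comp (vmv' (Y p))) (x p)
  have hmu : ∀ iw, mu iw = lam (∑ p, vecMulVec (x p iw) (Y p)) := by
    intro iw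
    show (∑ p, Finsupp.mapRange.linearMap (lam.comp (vmv' (Y p))) (x p)) iw = _
    rw [Finsupp.finsetSum_apply, map_sum]
    rfl
  let zz : Fin q → ((I × List B) →₀ (Fin m → R)) := fun p =>
    Finsupp.mapRange.linearMap (LinearMap.toSpanSingleton k _ (Z p)) mu
  have hzz : ∀ p iw, zz p iw = mu iw • Z p := fun p iw => rfl
  have h1 : ∑ p, Psi bs bL lam A (zz p) (c p) = 0 := by
    have e1 : ∀ p, Psi bs bL lam A (zz p) (c p) =
        ∑ iw ∈ mu.support, mu iw • emb (bL iw.1) (Lw iw.2 (th bs lam A (Z p) (c p))) := by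
      intro p
      show Psi bs bL lam A (Finsupp.mapRange.linearMap (LinearMap.toSpanSingleton k _ (Z p)) mu)
        (c p) = _
      rw [Psi_zz]
      unfold Finsupp.sum
      rw [LinearMap.sum_apply]
      rfl
    rw [Finset.sum_congr rfl fun p _ => e1 p, Finset.sum_comm]
    apply Finset.sum_eq_zero
    intro iw _
    rw [← Finset.smul_sum, ← map_sum, ← map_sum, hth, map_zero, map_zero, smul_zero]
  have h2 : ∑ p, nf bs bL lam A (r p) (x p - zz p) (c p) = 0 := by
    have e2 : ∀ p, nf bs bL lam A (r p) (x p - zz p) (c p) =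
        nf bs bL lam A (r p) (x p) (c p) - Psi bs bL lam A (zz p) (c p) := by
      intro p
      rw [nf_apply, nf_apply, map_sub, LinearMap.sub_apply]
      abel
    rw [Finset.sum_congr rfl fun p _ => e2 p, Finset.sum_sub_distrib, h, h1, sub_zero]
  have h3 : ∀ p, x p - zz p = 0 := by
    refine nz bs bL lam A q r (fun p => x p - zz p) c w0' hc ?_ h2
    intro iw hpr
    have e3 : ∑ p, vecMulVec ((x p - zz p) iw) (c p w0') =
        κ • (∑ p, vecMulVec (x p iw) (Y p) - mu iw • A) := by
      rw [← hZY, Finset.smul_sum, ← Finset.sum_sub_distrib, Finset.smul_sum]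
      refine Finset.sum_congr rfl fun p _ => ?_
      rw [hcw p, Finsupp.sub_apply, hzz]
      ext a b
      simp [vecMulVec_apply, sub_mul, smul_sub]
    rw [e3, map_smul] at hpr
    have e4 := (smul_eq_zero.mp hpr).resolve_left hκ
    have e5 : lam (∑ p, vecMulVec (x p iw) (Y p) - mu iw • A) = 0 := by
      rw [map_sub, map_smul, hA, ← hmu iw, smul_eq_mul, mul_one, sub_self]
    rw [pr_apply, e5, zero_smul, sub_zero] at e4
    intro p
    funext a
    refine hcan (fun p => (x p - zz p) iw a) ?_ ?_ p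
    · intro p'
      simp only [Finsupp.sub_apply, Pi.sub_apply, hzz, sub_mul, Finset.sum_sub_distrib, hxg,
        Pi.smul_apply, smul_mul_assoc]
      rw [← Finset.smul_sum, hZg]
    · intro b
      have e6 := congrFun (congrFun e4 a) b
      rw [Matrix.sub_apply, Matrix.sum_apply, Matrix.smul_apply, ← hZY, Matrix.sum_apply,
        Finset.smul_sum, ← Finset.sum_sub_distrib] at e6
      rw [Matrix.zero_apply] at e6
      rw [← e6]
      refine Finset.sum_congr rfl fun p _ => ?_
      simp only [Finsupp.sub_apply, Pi.sub_apply, hzz, sub_mul, Pi.smul_apply, smul_mul_assoc,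
        vecMulVec_apply]
  have h4 : ∀ p, x p = zz p := fun p => sub_eq_zero.mp (h3 p)
  have h5 : ∀ p, r p = 0 := by
    have e7 : ∑ p, r p • c p = 0 := by
      rw [← h2]
      refine Finset.sum_congr rfl fun p _ => ?_
      rw [nf_apply, h3 p, map_zero, LinearMap.zero_apply, add_zero]
    have e8 := congrArg (fun z : MM R B n => z w0') e7
    simp only [Finsupp.zero_apply] at e8
    rw [Finsupp.finsetSum_apply] at e8
    have e9 : κ • ∑ p, r p • Y p = 0 := by
      rw [← e8, Finset.smul_sum]
      refine Finset.sum_congr rfl fun p _ => ?_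
      rw [Finsupp.smul_apply, hcw p, smul_comm]
    have e10 := (smul_eq_zero.mp e9).resolve_left hκ
    refine hcan r hrg fun b => ?_
    have e11 := congrFun e10 b
    rw [Finset.sum_apply] at e11
    exact e11
  refine ⟨h5, ?_⟩
  have h6 : Psi bs bL lam A (Finsupp.mapRange.linearMap (LinearMap.toSpanSingleton k _ z) mu)
      = 0 := by
    rw [Psi_zz, ← hs]
    have e12 : ∀ p, nf bs bL lam A (r p) (x p) * op bs lam A (Y p) [] z =
        ∑ iw ∈ mu.support, mu iw • (op bs lam A (bL iw.1) iw.2 (Z p) * op bs lam A (Y p) [] z) := by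
      intro p
      unfold nf
      rw [h5 p, h4 p, map_zero, zero_add]
      show Psi bs bL lam A (Finsupp.mapRange.linearMap (LinearMap.toSpanSingleton k _ (Z p)) mu)
        * _ = _
      rw [Psi_zz]
      unfold Finsupp.sum
      rw [Finset.sum_mul]
      refine Finset.sum_congr rfl fun iw _ => ?_
      rw [smul_mul_assoc]
    rw [Finset.sum_congr rfl fun p _ => e12 p, Finset.sum_comm]
    unfold Finsupp.sum
    refine Finset.sum_congr rfl fun iw _ => ?_
    rw [← Finset.smul_sum, sum_op bs lam A hA q Z Y hZY]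
  have h7 := (inj1 bs bL lam A hnv 0 _ τ hτ (by
    rw [nf_apply, h6, zero_smul, LinearMap.zero_apply, add_zero])).2
  have h8 : ∀ iw, mu iw = 0 := by
    intro iw
    have e13 := DFunLike.congr_fun h7 iw
    have e14 : mu iw • z = 0 := e13
    exact (smul_eq_zero.mp e14).resolve_right hz
  intro p
  rw [h4 p]
  ext iw : 1
  rw [hzz, h8, zero_smul, Finsupp.zero_apply]

end

end Pool.Agent.H397R3.NORE
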